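import Pool.Agent.V11133.ZM.Final
import Pool.Agent.H103R2.LM.M

/-!
# Consequences of the measure for `1, ζ(3), ζ(4)`
-/

open Pool.Agent.H337R2 Pool.Agent.ZF

namespace Pool.Agent.V11133.ZM

noncomputable section

lemma zr4_eq : zr 4 = Real.pi ^ 4 / 90 := by
  have h1 := (hasSum_nat_add_iff' 1).2 hasSum_zeta_four
  rw [Finset.sum_range_one] at h1
  simp only [Nat.cast_zero, ne_eq, OfNat.ofNat_ne_zero, not_false_eq_true, zero_pow, div_zero, sub_zero] at h1
  have h2 : HasSum (fun n : ℕ => 1 / ((n : ℝ) + 1) ^ 4) (Real.pi ^ 4 / 90) := by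
    refine h1.congr_fun fun n => ?_
    push_cast
    rfl
  exact h2.tsum_eq

/-- explicit exponent, `π ^ 4`, coefficient of `π ^ 4` nonzero -/
theorem pi_d : ∃ c : ℝ, 0 < c ∧ ∀ a b d : ℤ, d ≠ 0 → ∀ H : ℝ, |(b : ℝ)| ≤ H → |(d : ℝ)| ≤ H →
    c / H ^ 145 ≤ |(a : ℝ) + b * zr 3 + d * Real.pi ^ 4| := by
  obtain ⟨c, hc, hm⟩ := measure_d
  refine ⟨c / 90 ^ 145, by positivity, ?_⟩
  intro a b d hd H hb hdH
  have hd1 : (1 : ℝ) ≤ |(d : ℝ)| := by
    have : (1 : ℤ) ≤ |d| := Int.one_le_abs hd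
    exact_mod_cast this
  have hH1 : 1 ≤ H := hd1.trans hdH
  have hH0 : 0 < H := by linarith
  have h := hm a b (90 * d) (90 * H) (by linarith) (by omega) (by linarith) (by
    push_cast
    rw [abs_mul, abs_of_pos (by norm_num : (0 : ℝ) < 90)]
    linarith)
  rw [zr4_eq] at h
  have e1 : (a : ℝ) + b * zr 3 + ((90 * d : ℤ) : ℝ) * (Real.pi ^ 4 / 90) = a + b * zr 3 + d * Real.pi ^ 4 := by
    push_cast
    ring
  rw [e1] at h
  refine le_trans (le_of_eq ?_) h
  rw [Real.rpow_neg (by positivity), show (145 : ℝ) = ((145 : ℕ) : ℝ) by norm_num, Real.rpow_natCast, mul_pow,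
    div_div, div_eq_mul_inv]

/-- irrationality exponent of `ζ(3) + s π ^ 4` at most `146` -/
theorem shift_exp (s : ℚ) (hs : s ≠ 0) : ∃ c : ℝ, 0 < c ∧ ∀ p q : ℤ, 0 < q →
    c / (q : ℝ) ^ 146 ≤ |zr 3 + s * Real.pi ^ 4 - p / q| := by
  obtain ⟨c, hc, h⟩ := pi_d
  set K : ℝ := max (s.den : ℝ) |(s.num : ℝ)| with hK
  have hden : (0 : ℝ) < s.den := by exact_mod_cast s.pos
  have hK0 : 0 < K := lt_max_of_lt_left hden
  refine ⟨c / K ^ 145 / s.den, by positivity, ?_⟩
  intro p q hq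
  have hq0 : (0 : ℝ) < q := by exact_mod_cast hq
  have hnum : s.num ≠ 0 := Rat.num_ne_zero.2 hs
  have h1 := h (-(s.den * p)) (s.den * q) (s.num * q) (mul_ne_zero hnum hq.ne') (K * q)
    (by push_cast; rw [abs_mul, abs_of_pos hden, abs_of_pos hq0]
        exact mul_le_mul_of_nonneg_right (le_max_left _ _) hq0.le)
    (by push_cast; rw [abs_mul, abs_of_pos hq0]
        exact mul_le_mul_of_nonneg_right (le_max_right _ _) hq0.le)
  have hsr : (s : ℝ) = s.num / s.den := by exact_mod_cast (Rat.num_div_den s).symm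
  have e1 : zr 3 + s * Real.pi ^ 4 - p / q =
      (((-(s.den * p) : ℤ) : ℝ) + ((s.den * q : ℤ) : ℝ) * zr 3 + ((s.num * q : ℤ) : ℝ) * Real.pi ^ 4) / (s.den * q) := by
    rw [hsr]
    push_cast
    field_simp
    ring
  rw [e1, abs_div, abs_of_pos (mul_pos hden hq0)]
  rw [le_div_iff₀ (mul_pos hden hq0)]
  refine le_trans (le_of_eq ?_) h1
  rw [mul_pow]
  field_simp

/-- irrationality exponent of `(ζ(3) + r) / π ^ 4` at most `146` -/
theorem quot_exp (r : ℚ) : ∃ c : ℝ, 0 < c ∧ ∀ p q : ℤ, 0 < q →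
    c / (q : ℝ) ^ 146 ≤ |(zr 3 + r) / Real.pi ^ 4 - p / q| := by
  obtain ⟨c, hc, h⟩ := pi_d
  obtain ⟨c2, hc2, κ2, hκ2, h2⟩ := Pool.Agent.LM.measure_d
  have hpi : (0 : ℝ) < Real.pi ^ 4 := by positivity
  have hden : (0 : ℝ) < r.den := by exact_mod_cast r.pos
  have hden1 : (1 : ℝ) ≤ r.den := by exact_mod_cast r.pos
  have hr : (r : ℝ) = r.num / r.den := by exact_mod_cast (Rat.num_div_den r).symm
  have hz3 : 0 < |zr 3 + r| := by
    have hd : (r.den : ℤ) ≠ 0 := by exact_mod_cast r.den_nz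
    have h3 := h2 r.num 0 r.den r.den hden1 hd (by push_cast; rw [abs_zero]; linarith)
      (by push_cast; rw [abs_of_pos hden])
    have h4 : 0 < c2 * (r.den : ℝ) ^ (-κ2) := by positivity
    have e : (r.num : ℝ) + ((0 : ℤ) : ℝ) * zr 2 + ((r.den : ℤ) : ℝ) * zr 3 = r.den * (zr 3 + r) := by
      rw [hr]
      push_cast
      field_simp
      ring
    rw [e, abs_mul, abs_of_pos hden] at h3
    exact pos_of_mul_pos_right (lt_of_lt_of_le h4 h3) hden.le
  set x : ℝ := (zr 3 + r) / Real.pi ^ 4 with hx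
  have hx0 : 0 < |x| := by
    rw [hx, abs_div, abs_of_pos hpi]
    exact div_pos hz3 hpi
  set X : ℝ := |x| + 1 with hX
  have hX0 : 0 < X := by linarith
  have hXX : 1 ≤ X := by linarith
  set Y : ℝ := X * r.den with hY
  have hY0 : 0 < Y := by positivity
  refine ⟨min (min |x| 1) (c / (Y ^ 145 * (r.den * Real.pi ^ 4))), by positivity, ?_⟩
  intro p q hq
  have hq0 : (0 : ℝ) < q := by exact_mod_cast hq
  have hq1 : (1 : ℝ) ≤ q := by exact_mod_cast (by omega : (1 : ℤ) ≤ q)
  have hqp : (1 : ℝ) ≤ (q : ℝ) ^ 146 := one_le_pow₀ hq1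
  by_cases hp0 : p = 0
  · rw [hp0]
    push_cast
    rw [zero_div, sub_zero]
    refine (div_le_self (by positivity) hqp).trans ?_
    exact (min_le_left _ _).trans (min_le_left _ _)
  · by_cases hpq : |(p : ℝ)| ≤ X * q
    · have hne : -(r.den * p : ℤ) ≠ 0 := by
        have hd : (r.den : ℤ) ≠ 0 := by exact_mod_cast r.den_nz
        exact neg_ne_zero.2 (mul_ne_zero hd hp0)
      have h1 := h (r.num * q) (r.den * q) (-(r.den * p)) hne (Y * q)
        (by
          push_cast
          rw [abs_mul, abs_of_pos hden, abs_of_pos hq0, hY]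
          have : (r.den : ℝ) * q ≤ X * (r.den * q) := le_mul_of_one_le_left (by positivity) hXX
          linarith)
        (by
          push_cast
          rw [abs_neg, abs_mul, abs_of_pos hden, hY]
          have := mul_le_mul_of_nonneg_left hpq hden.le
          linarith)
      have e1 : x - p / q = (((r.num * q : ℤ) : ℝ) + ((r.den * q : ℤ) : ℝ) * zr 3 +
          ((-(r.den * p) : ℤ) : ℝ) * Real.pi ^ 4) / (q * (r.den * Real.pi ^ 4)) := by
        rw [hx, hr]
        push_cast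
        field_simp
        ring
      have hD : 0 < (q : ℝ) * (r.den * Real.pi ^ 4) := by positivity
      have e2 : |x - p / q| = |((r.num * q : ℤ) : ℝ) + ((r.den * q : ℤ) : ℝ) * zr 3 +
          ((-(r.den * p) : ℤ) : ℝ) * Real.pi ^ 4| / (q * (r.den * Real.pi ^ 4)) := by
        rw [e1, abs_div, abs_of_pos hD]
      rw [e2, le_div_iff₀ hD]
      refine le_trans ?_ h1
      calc min (min |x| 1) (c / (Y ^ 145 * (r.den * Real.pi ^ 4))) / (q : ℝ) ^ 146 *
            (q * (r.den * Real.pi ^ 4))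
          ≤ (c / (Y ^ 145 * (r.den * Real.pi ^ 4))) / (q : ℝ) ^ 146 * (q * (r.den * Real.pi ^ 4)) := by
            apply mul_le_mul_of_nonneg_right _ (by positivity)
            exact div_le_div_of_nonneg_right (min_le_right _ _) (by positivity)
        _ = c / (Y * q) ^ 145 := by
            rw [mul_pow]
            field_simp
            rw [hY, mul_pow]
    · push Not at hpq
      refine (div_le_self (by positivity) hqp).trans ?_
      refine ((min_le_left _ _).trans (min_le_right _ _)).trans ?_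
      have h5 : X < |(p : ℝ) / q| := by
        rw [abs_div, abs_of_pos hq0, lt_div_iff₀ hq0]
        exact hpq
      have h6 : |(p : ℝ) / q| - |x| ≤ |x - p / q| := by
        rw [abs_sub_comm]
        exact abs_sub_abs_le_abs_sub _ _
      linarith

end

end Pool.Agent.V11133.ZM
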