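import Pool.Agent.TH647.NR.Rank
import Pool.Agent.TH647.NR.Zeta34
import Pool.Agent.V11133.ZM.Cor

/-!
# The measure for `1, ζ(3), π ^ 4` with exponent `145`, all nonzero integer vectors
-/

set_option autoImplicit false

namespace Pool.Agent.V11133.ZM

open Pool.Agent.W472.AC Pool.Agent.TH647.NR

/-- linear independence measure for `1, ζ(3), π ^ 4`, all nonzero integer vectors -/
theorem meas_zeta_pi4 : ∃ c : ℝ, 0 < c ∧
    Meas (![1, ∑' n : ℕ, 1 / ((n : ℝ) + 1) ^ 3, Real.pi ^ 4] : Fin (2 + 1) → ℝ) 145 c := by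
  obtain ⟨c₁, hc₁, h₁⟩ := Pool.Agent.V11133.ZM.pi_d
  obtain ⟨c₂, hc₂, h₂'⟩ := Pool.Agent.W170.Z3.Z_main
  have h₂ := lin_of_exp (∑' n : ℕ, 1 / ((n : ℝ) + 1) ^ 3) (542 / 100) (by norm_num) c₂ hc₂
    (fun p q hq => h₂' p q hq)
  obtain ⟨c, hc⟩ : ∃ c : ℝ, c = min (min c₁ c₂) 1 := ⟨_, rfl⟩
  have hcc1 : c ≤ c₁ := by rw [hc]; exact (min_le_left _ _).trans (min_le_left _ _)
  have hcc2 : c ≤ c₂ := by rw [hc]; exact (min_le_left _ _).trans (min_le_right _ _)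
  have hcc3 : c ≤ 1 := by rw [hc]; exact min_le_right _ _
  have hc0 : 0 < c := by rw [hc]; positivity
  refine ⟨c, hc0, ?_⟩
  intro a ha H hH hb
  have hH0 : 0 < H := by linarith
  have hval : ∑ j, (a j : ℝ) * (![1, ∑' n : ℕ, 1 / ((n : ℝ) + 1) ^ 3, Real.pi ^ 4] :
      Fin (2 + 1) → ℝ) j = a 0 + a 1 * (∑' n : ℕ, 1 / ((n : ℝ) + 1) ^ 3) + a 2 * Real.pi ^ 4 := by
    rw [Fin.sum_univ_three]
    simp
  rw [hval]
  have key : ∀ (d V : ℝ), c ≤ d → d * H ^ (-(145 : ℝ)) ≤ V → c ≤ H ^ (145 : ℝ) * V := by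
    intro d V hd hV
    have h2 : 0 < H ^ (145 : ℝ) := by positivity
    have h3 : H ^ (145 : ℝ) * H ^ (-(145 : ℝ)) = 1 := by rw [← Real.rpow_add hH0]; simp
    calc c ≤ d := hd
      _ = H ^ (145 : ℝ) * (d * H ^ (-(145 : ℝ))) := by rw [mul_left_comm, h3, mul_one]
      _ ≤ H ^ (145 : ℝ) * V := by gcongr
  by_cases h2 : a 2 = 0
  · rw [h2, Int.cast_zero, zero_mul, add_zero]
    by_cases h1 : a 1 = 0
    · have h0 : a 0 ≠ 0 := by
        intro h0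
        apply ha
        funext i
        fin_cases i
        · exact h0
        · exact h1
        · exact h2
      rw [h1, Int.cast_zero, zero_mul, add_zero]
      refine key 1 _ hcc3 ?_
      rw [one_mul]
      have h3 : H ^ (-(145 : ℝ)) ≤ 1 := Real.rpow_le_one_of_one_le_of_nonpos hH (by norm_num)
      have h4 : (1 : ℝ) ≤ |(a 0 : ℝ)| := by exact_mod_cast Int.one_le_abs h0
      linarith
    · refine key c₂ _ hcc2 ((?_ : _ ≤ _).trans (h₂ (a 0) (a 1) h1 H hH (hb 1)))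
      refine mul_le_mul_of_nonneg_left ?_ hc₂.le
      exact Real.rpow_le_rpow_of_exponent_le hH (by norm_num)
  · refine key c₁ _ hcc1 ?_
    have h3 := h₁ (a 0) (a 1) (a 2) h2 H (hb 1) (hb 2)
    have e3 : Pool.Agent.H337R2.zr 3 = ∑' n : ℕ, 1 / ((n : ℝ) + 1) ^ 3 := rfl
    rw [e3] at h3
    rw [Real.rpow_neg hH0.le, show (145 : ℝ) = ((145 : ℕ) : ℝ) by norm_num, Real.rpow_natCast,
      ← div_eq_mul_inv]
    exact h3

end Pool.Agent.V11133.ZM
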