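import Pool.Agent.V11133.ZM.Res

/-!
# The pole functional is bounded by the values on the line: the constant `57.6`
-/

open Polynomial Pool.Agent.H337R2 Filter Topology Pool.Agent.ZF

namespace Pool.Agent.V11133.ZM

noncomputable section

/-- the rational part of the constant -/
def K2 : ℝ := K1 * ((10 / 7) ^ 20 * (7 / 3) ^ 6) * (13 / 9) ^ 4 * 2 ^ 8 * (172 / 25) ^ 8

lemma K2_le : K2 ≤ Real.exp (646 / 10) := by
  have h1 : K2 ≤ (2 / 3) * (27182818283 / 10000000000) ^ 65 := by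
    unfold K2 K1
    norm_num
  have h2 : ((27182818283 : ℝ) / 10000000000) ^ 65 ≤ Real.exp 1 ^ 65 := by
    apply pow_le_pow_left₀ (by norm_num)
    have := Real.exp_one_gt_d9
    linarith
  have h3 : Real.exp 1 ^ 65 = Real.exp 65 := by
    rw [← Real.exp_nat_mul]
    norm_num
  have h4 : (2 : ℝ) / 3 ≤ Real.exp (-(4 / 10)) := by
    rw [Real.exp_neg, le_inv_comm₀ (by norm_num) (Real.exp_pos _)]
    have h5 : Real.exp (4 / 10) ^ 5 = Real.exp 1 ^ 2 := by
      rw [← Real.exp_nat_mul, ← Real.exp_nat_mul]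
      norm_num
    apply le_of_pow_le_pow_left₀ (n := 5) (by norm_num) (by norm_num)
    rw [h5]
    have h6 := Real.exp_one_lt_d9
    have h7 : Real.exp 1 ^ 2 ≤ (27182818286 / 10000000000) ^ 2 :=
      pow_le_pow_left₀ (Real.exp_pos _).le (by linarith) 2
    refine h7.trans ?_
    norm_num
  calc K2 ≤ (2 / 3) * Real.exp 65 := by
        refine h1.trans ?_
        rw [← h3]
        exact mul_le_mul_of_nonneg_left h2 (by norm_num)
    _ ≤ Real.exp (-(4 / 10)) * Real.exp 65 := mul_le_mul_of_nonneg_right h4 (Real.exp_pos _).le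
    _ = _ := by rw [← Real.exp_add]; congr 1; norm_num

lemma exp_th : Real.exp (bet / 2) ≤ 147 / 25 := by
  apply le_of_pow_le_pow_left₀ (n := 4) (by norm_num) (by norm_num)
  rw [← Real.exp_nat_mul]
  have h1 : ((4 : ℕ) : ℝ) * (bet / 2) ≤ 7 + 75 / 1000 := by
    unfold bet
    have := Real.pi_lt_d4
    push_cast
    linarith
  refine (Real.exp_le_exp.2 h1).trans ?_
  rw [Real.exp_add]
  have h2 : Real.exp 7 ≤ (27182818286 / 10000000000) ^ 7 := by
    have e : Real.exp 7 = Real.exp 1 ^ 7 := by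
      rw [← Real.exp_nat_mul]
      norm_num
    rw [e]
    apply pow_le_pow_left₀ (Real.exp_pos _).le
    have := Real.exp_one_lt_d9
    linarith
  have h3 : Real.exp (75 / 1000) ≤ 1000 / 925 := by
    have h4 := Real.add_one_le_exp (-(75 / 1000 : ℝ))
    have h5 : (925 : ℝ) / 1000 ≤ Real.exp (-(75 / 1000)) := by linarith
    rw [Real.exp_neg, le_inv_comm₀ (by norm_num) (Real.exp_pos _)] at h5
    refine h5.trans (le_of_eq ?_)
    norm_num
  calc Real.exp 7 * Real.exp (75 / 1000) ≤ (27182818286 / 10000000000) ^ 7 * (1000 / 925) :=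
        mul_le_mul h2 h3 (Real.exp_pos _).le (by norm_num)
    _ ≤ _ := by norm_num

/-- the polynomial factor -/
def pol (n : ℕ) : ℝ := 7 * n * (400 * (n : ℝ) ^ 2) * (3 * (4 * n + 1) ^ 3)

/-- **the pole functional** -/
theorem rho_pol {n : ℕ} (hn : 1 ≤ n) (Q : ℚ[X]) (hQ : Q.natDegree ≤ 8 * n - 2) (B : ℝ)
    (hB : ∀ y : ℝ, NG n y * ‖aeval (zl y) Q‖ * Real.exp (-(2 * Real.pi * |y|)) ≤ B * (1 + y ^ 2)⁻¹) :
    |((rho n (PF n * Q) : ℚ) : ℝ)| ≤ pol n * Real.exp (5753 / 100 * n) * B := by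
  have hn1 : (1 : ℝ) ≤ n := by exact_mod_cast hn
  have hNG0 : ∀ y : ℝ, 0 ≤ NG n y := fun y => by unfold NG; positivity
  have hB0 : 0 ≤ B := by
    have h := hB 0
    have h2 : 0 ≤ NG n 0 * ‖aeval (zl 0) Q‖ * Real.exp (-(2 * Real.pi * |0|)) :=
      mul_nonneg (mul_nonneg (hNG0 0) (norm_nonneg _)) (Real.exp_pos _).le
    have h3 : B * (1 + (0 : ℝ) ^ 2)⁻¹ = B := by norm_num
    rw [h3] at h
    exact h2.trans h
  set c : ℝ := ((Nat.choose (10 * n) (3 * n) : ℕ) : ℝ) with hc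
  set W : ℝ := 3 * (4 * n + 1) ^ 3 * c ^ 2 with hW
  have hW0 : 0 ≤ W := by positivity
  have hA : ∀ j : ℕ, j ≤ 8 * n - 2 → ‖aeval (zl (nd n j)) Q‖ ≤
      B * W * Real.exp (2 * (bet / 2) * |nd n j|) := by
    intro j hj
    have hj8 : (j : ℝ) ≤ 8 * n := by exact_mod_cast (by omega : j ≤ 8 * n)
    have hj0 : (0 : ℝ) ≤ j := Nat.cast_nonneg j
    set y := nd n j with hy
    have hy2 : |y| ≤ 2 * n := by
      rw [hy, abs_le]
      unfold nd
      constructor <;> linarith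
    have h1 := NG_low hn hy2
    have h2 : NG n y * ‖aeval (zl y) Q‖ * Real.exp (-(2 * Real.pi * |y|)) ≤ B := by
      refine (hB y).trans ?_
      apply mul_le_of_le_one_right hB0
      apply inv_le_one_of_one_le₀
      nlinarith [sq_nonneg y]
    have h3 : NG n y * ‖aeval (zl y) Q‖ ≤ B * Real.exp (2 * Real.pi * |y|) := by
      have h4 := mul_le_mul_of_nonneg_right h2 (Real.exp_pos (2 * Real.pi * |y|)).le
      rw [mul_assoc, ← Real.exp_add, neg_add_cancel, Real.exp_zero, mul_one] at h4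
      exact h4
    have e2 : 2 * (bet / 2) * |y| = bet * |y| := by ring
    rw [e2]
    have h5 : ‖aeval (zl y) Q‖ * Real.exp (2 * Real.pi * |y|) ≤
        (B * W * Real.exp (bet * |y|)) * Real.exp (2 * Real.pi * |y|) := by
      calc ‖aeval (zl y) Q‖ * Real.exp (2 * Real.pi * |y|)
          ≤ ‖aeval (zl y) Q‖ * (NG n y * (W * Real.exp (bet * |y|))) :=
            mul_le_mul_of_nonneg_left h1 (norm_nonneg _)
        _ = (NG n y * ‖aeval (zl y) Q‖) * (W * Real.exp (bet * |y|)) := by ring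
        _ ≤ (B * Real.exp (2 * Real.pi * |y|)) * (W * Real.exp (bet * |y|)) :=
            mul_le_mul_of_nonneg_right h3 (by positivity)
        _ = _ := by ring
    exact le_of_mul_le_mul_right h5 (Real.exp_pos _)
  set S : ℝ := Real.exp (-(4 * n * (bet / 2))) * (1 + Real.exp (bet / 2)) ^ (8 * n) with hS
  have hS0 : 0 ≤ S := by positivity
  have hterm : ∀ k ∈ sF n, |((pa (sF n) mF (PF n * Q) k 2 : ℚ) : ℝ)| ≤
      400 * (n : ℝ) ^ 2 * K1 ^ n * (B * W * ((13 / 9) ^ (4 * n) * 2 ^ (8 * n) * S)) := by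
    intro k hk
    have hk' := hk
    rw [Finset.mem_Icc] at hk'
    have h1 := lagr hn Q hQ k (by omega) (B * W) (bet / 2) (by positivity) hA
    rw [b_eq hk Q]
    have h2 := b_bound hk
    set b : ℝ := (7 * n * ((7 * n - 1).choose (k - (3 * n + 1)) : ℝ)) ^ 2 * ((k - 1).choose (2 * n) : ℝ) ^ 3
      with hb
    have hb0 : 0 ≤ b := by positivity
    calc b * |((Q.eval (-(k : ℚ)) : ℚ) : ℝ)|
        ≤ b * (B * W * ((13 / 9) ^ (4 * n) * 2 ^ (8 * n) * Real.exp k * S)) :=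
          mul_le_mul_of_nonneg_left h1 hb0
      _ = (b * Real.exp k) * (B * W * ((13 / 9) ^ (4 * n) * 2 ^ (8 * n) * S)) := by ring
      _ ≤ _ := mul_le_mul_of_nonneg_right h2 (by positivity)
  have hcard : (sF n).card = 7 * n := by
    rw [Nat.card_Icc]; omega
  have hsum : |((rho n (PF n * Q) : ℚ) : ℝ)| ≤
      7 * n * (400 * (n : ℝ) ^ 2 * K1 ^ n * (B * W * ((13 / 9) ^ (4 * n) * 2 ^ (8 * n) * S))) := by
    unfold rho
    push_cast
    refine (Finset.abs_sum_le_sum_abs _ _).trans ?_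
    refine (Finset.sum_le_sum hterm).trans (le_of_eq ?_)
    rw [Finset.sum_const, hcard, nsmul_eq_mul]
    push_cast
    ring
  refine hsum.trans ?_
  -- the constants
  have hcle : c ^ 2 ≤ ((10 / 7) ^ 20 * (7 / 3) ^ 6) ^ n := by
    have h1 := choose_le (10 * n) (3 * n) (3 / 7) (by norm_num)
    have e1 : (1 : ℝ) + 3 / 7 = 10 / 7 := by norm_num
    rw [e1] at h1
    have h2 : c ≤ (10 / 7) ^ (10 * n) * (7 / 3) ^ (3 * n) := by
      have e2 : ((7 : ℝ) / 3) ^ (3 * n) = ((3 / 7) ^ (3 * n))⁻¹ := by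
        rw [← inv_pow]
        norm_num
      rw [e2, ← div_eq_mul_inv, le_div_iff₀ (by positivity)]
      exact h1
    have h3 := pow_le_pow_left₀ (by positivity) h2 2
    refine h3.trans (le_of_eq ?_)
    rw [mul_pow, mul_pow, ← pow_mul, ← pow_mul, ← pow_mul, ← pow_mul]
    congr 2 <;> ring
  have hSle : S ≤ Real.exp (-(70748 / 10000 * n)) * ((172 / 25) ^ 8) ^ n := by
    rw [hS]
    apply mul_le_mul
    · apply Real.exp_le_exp.2
      unfold bet
      have := Real.pi_gt_d4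
      nlinarith
    · rw [← pow_mul]
      apply pow_le_pow_left₀ (by positivity)
      have := exp_th
      linarith
    · positivity
    · positivity
  have hK2n : K2 ^ n ≤ Real.exp (646 / 10 * n) := by
    have h1 := pow_le_pow_left₀ (by unfold K2 K1; positivity) K2_le n
    refine h1.trans (le_of_eq ?_)
    rw [← Real.exp_nat_mul]
    congr 1
    ring
  have hK10 : 0 ≤ K1 ^ n := by unfold K1; positivity
  calc 7 * n * (400 * (n : ℝ) ^ 2 * K1 ^ n * (B * W * ((13 / 9) ^ (4 * n) * 2 ^ (8 * n) * S)))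
      = pol n * B * (K1 ^ n * c ^ 2 * (13 / 9) ^ (4 * n) * 2 ^ (8 * n) * S) := by
        rw [hW]
        unfold pol
        ring
    _ ≤ pol n * B * (K1 ^ n * ((10 / 7) ^ 20 * (7 / 3) ^ 6) ^ n * (13 / 9) ^ (4 * n) * 2 ^ (8 * n) *
          (Real.exp (-(70748 / 10000 * n)) * ((172 / 25) ^ 8) ^ n)) := by
        apply mul_le_mul_of_nonneg_left _ (by unfold pol; positivity)
        apply mul_le_mul _ hSle hS0 (by positivity)
        apply mul_le_mul_of_nonneg_right _ (by positivity)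
        apply mul_le_mul_of_nonneg_right _ (by positivity)
        exact mul_le_mul_of_nonneg_left hcle hK10
    _ = pol n * B * (K2 ^ n * Real.exp (-(70748 / 10000 * n))) := by
        unfold K2
        rw [mul_pow _ ((172 / 25 : ℝ) ^ 8) n, mul_pow _ ((2 : ℝ) ^ 8) n, mul_pow _ ((13 / 9 : ℝ) ^ 4) n,
          mul_pow K1 _ n, ← pow_mul (13 / 9 : ℝ) 4 n, ← pow_mul (2 : ℝ) 8 n]
        ring
    _ ≤ pol n * B * (Real.exp (646 / 10 * n) * Real.exp (-(70748 / 10000 * n))) := by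
        apply mul_le_mul_of_nonneg_left _ (by unfold pol; positivity)
        exact mul_le_mul_of_nonneg_right hK2n (Real.exp_pos _).le
    _ ≤ pol n * B * Real.exp (5753 / 100 * n) := by
        apply mul_le_mul_of_nonneg_left _ (by unfold pol; positivity)
        rw [← Real.exp_add]
        apply Real.exp_le_exp.2
        linarith
    _ = _ := by ring

lemma pol_ev : ∀ᶠ n : ℕ in atTop, pol n ≤ Real.exp (7 / 100 * n) := by
  have h1 : Tendsto (fun x : ℝ => x ^ 7 / Real.exp x) atTop (𝓝 0) := by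
    have := Real.tendsto_pow_mul_exp_neg_atTop_nhds_zero 7
    refine this.congr fun x => ?_
    rw [Real.exp_neg, div_eq_mul_inv]
  have h2 : Tendsto (fun n : ℕ => (7 / 100 : ℝ) * n) atTop atTop :=
    tendsto_natCast_atTop_atTop.const_mul_atTop (by norm_num)
  have h3 := (h1.comp h2).eventually (gt_mem_nhds (show (0 : ℝ) < (7 / 100) ^ 7 by norm_num))
  filter_upwards [h3, eventually_ge_atTop 2000000] with n hn hn2
  simp only [Function.comp] at hn
  have hn2' : (2000000 : ℝ) ≤ n := by exact_mod_cast hn2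
  rw [div_lt_iff₀ (Real.exp_pos _), mul_pow] at hn
  have h4 : (n : ℝ) ^ 7 ≤ Real.exp (7 / 100 * n) := by
    have h5 : ((7 : ℝ) / 100) ^ 7 * (n : ℝ) ^ 7 ≤ (7 / 100) ^ 7 * Real.exp (7 / 100 * n) := hn.le
    exact le_of_mul_le_mul_left h5 (by norm_num)
  refine le_trans ?_ h4
  unfold pol
  have h6 : (4 * (n : ℝ) + 1) ^ 3 ≤ (5 * n) ^ 3 := pow_le_pow_left₀ (by positivity) (by linarith) 3
  have h7 : (0 : ℝ) ≤ 7 * n * (400 * (n : ℝ) ^ 2) := by positivity
  calc 7 * (n : ℝ) * (400 * (n : ℝ) ^ 2) * (3 * (4 * n + 1) ^ 3)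
      ≤ 7 * n * (400 * (n : ℝ) ^ 2) * (3 * (5 * n) ^ 3) :=
        mul_le_mul_of_nonneg_left (mul_le_mul_of_nonneg_left h6 (by norm_num)) h7
    _ = 1050000 * (n : ℝ) ^ 6 := by ring
    _ ≤ (n : ℝ) * (n : ℝ) ^ 6 := mul_le_mul_of_nonneg_right (by linarith) (by positivity)
    _ = _ := by ring

/-- **the pole functional**, final form -/
theorem rho_sharp : ∀ᶠ n : ℕ in atTop, ∀ Q : ℚ[X], Q.natDegree ≤ 8 * n - 2 → ∀ B : ℝ,
    (∀ y : ℝ, NG n y * ‖aeval (zl y) Q‖ * Real.exp (-(2 * Real.pi * |y|)) ≤ B * (1 + y ^ 2)⁻¹) →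
    |((rho n (PF n * Q) : ℚ) : ℝ)| ≤ Real.exp (576 / 10 * n) * B := by
  filter_upwards [pol_ev, eventually_ge_atTop 1] with n h1 hn Q hQ B hB
  have hB0 : 0 ≤ B := by
    have h := hB 0
    have h2 : 0 ≤ NG n 0 * ‖aeval (zl 0) Q‖ * Real.exp (-(2 * Real.pi * |0|)) :=
      mul_nonneg (mul_nonneg (by unfold NG; positivity) (norm_nonneg _)) (Real.exp_pos _).le
    have h3 : B * (1 + (0 : ℝ) ^ 2)⁻¹ = B := by norm_num
    rw [h3] at h
    exact h2.trans h
  refine (rho_pol hn Q hQ B hB).trans ?_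
  apply mul_le_mul_of_nonneg_right _ hB0
  calc pol n * Real.exp (5753 / 100 * n) ≤ Real.exp (7 / 100 * n) * Real.exp (5753 / 100 * n) :=
        mul_le_mul_of_nonneg_right h1 (Real.exp_pos _).le
    _ = Real.exp (576 / 10 * n) := by
        rw [← Real.exp_add]
        congr 1
        ring

end

end Pool.Agent.V11133.ZM
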