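import Pool.Agent.V11133.ZM.Low

/-!
# Values of a polynomial at negative integers from its values on the line
-/

open Polynomial Pool.Agent.H337R2 Filter Topology Pool.Agent.ZF

namespace Pool.Agent.V11133.ZM

noncomputable section

/-- the nodes -/
def nd (n j : ℕ) : ℝ := ((j : ℝ) - 4 * n) / 2

/-- the sum of the weights of the nodes -/
lemma node_sum (θ : ℝ) (n : ℕ) (hn : 1 ≤ n) :
    ∑ j ∈ Finset.range (8 * n - 2 + 1), ((8 * n - 2).choose j : ℝ) * Real.exp (2 * θ * |nd n j|) ≤
      Real.exp (-(4 * n * θ)) * (1 + Real.exp θ) ^ (8 * n) := by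
  set D := 8 * n - 2 with hD
  have hD2 : 8 * n = D + 2 := by omega
  have hDr : (D : ℝ) = 8 * n - 2 := by
    have : ((8 * n : ℕ) : ℝ) = ((D + 2 : ℕ) : ℝ) := by rw [hD2]
    push_cast at this
    linarith
  have hb : ∀ a : ℝ, ∑ j ∈ Finset.range (D + 1), (D.choose j : ℝ) * Real.exp (a * j) = (1 + Real.exp a) ^ D := by
    intro a
    rw [add_comm (1 : ℝ), add_pow]
    apply Finset.sum_congr rfl
    intro j _
    rw [one_pow, mul_one, mul_comm, ← Real.exp_nat_mul, mul_comm a]
  have h1 : ∀ j ∈ Finset.range (D + 1), (D.choose j : ℝ) * Real.exp (2 * θ * |nd n j|) ≤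
      (D.choose j : ℝ) * (Real.exp (-(4 * n * θ)) * Real.exp (θ * j)) +
      (D.choose j : ℝ) * (Real.exp (4 * n * θ) * Real.exp (-θ * j)) := by
    intro j _
    rw [← mul_add]
    apply mul_le_mul_of_nonneg_left _ (Nat.cast_nonneg _)
    rw [← Real.exp_add, ← Real.exp_add]
    have e1 : 2 * θ * |nd n j| = θ * |(j : ℝ) - 4 * n| := by
      unfold nd
      rw [abs_div, abs_of_pos (by norm_num : (0 : ℝ) < 2)]
      ring
    rw [e1]
    have hp1 := Real.exp_pos (-(4 * n * θ) + θ * j)
    have hp2 := Real.exp_pos (4 * n * θ + -θ * j)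
    rcases abs_cases ((j : ℝ) - 4 * n) with ⟨h, _⟩ | ⟨h, _⟩
    · rw [h]
      have : θ * ((j : ℝ) - 4 * n) = -(4 * n * θ) + θ * j := by ring
      rw [this]
      linarith
    · rw [h]
      have : θ * -((j : ℝ) - 4 * n) = 4 * n * θ + -θ * j := by ring
      rw [this]
      linarith
  refine (Finset.sum_le_sum h1).trans ?_
  rw [Finset.sum_add_distrib]
  have s1 : ∑ j ∈ Finset.range (D + 1), (D.choose j : ℝ) * (Real.exp (-(4 * n * θ)) * Real.exp (θ * j)) =
      Real.exp (-(4 * n * θ)) * (1 + Real.exp θ) ^ D := by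
    rw [← hb θ, Finset.mul_sum]
    apply Finset.sum_congr rfl
    intro j _
    ring
  have s2 : ∑ j ∈ Finset.range (D + 1), (D.choose j : ℝ) * (Real.exp (4 * n * θ) * Real.exp (-θ * j)) =
      Real.exp (4 * n * θ) * (1 + Real.exp (-θ)) ^ D := by
    rw [← hb (-θ), Finset.mul_sum]
    apply Finset.sum_congr rfl
    intro j _
    ring
  rw [s1, s2]
  have e3 : (1 + Real.exp (-θ)) ^ D = Real.exp (-(θ * D)) * (1 + Real.exp θ) ^ D := by
    have : 1 + Real.exp (-θ) = Real.exp (-θ) * (1 + Real.exp θ) := by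
      rw [mul_add, mul_one, ← Real.exp_add, neg_add_cancel, Real.exp_zero, add_comm]
    rw [this, mul_pow, ← Real.exp_nat_mul]
    congr 2
    ring
  have e4 : Real.exp (4 * n * θ) * (1 + Real.exp (-θ)) ^ D =
      Real.exp (-(4 * n * θ)) * (1 + Real.exp θ) ^ D * Real.exp (2 * θ) := by
    rw [e3]
    have : Real.exp (4 * n * θ) * (Real.exp (-(θ * D)) * (1 + Real.exp θ) ^ D) =
        (Real.exp (4 * n * θ) * Real.exp (-(θ * D))) * (1 + Real.exp θ) ^ D := by ring
    rw [this, ← Real.exp_add]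
    have e5 : 4 * n * θ + -(θ * D) = -(4 * n * θ) + 2 * θ := by rw [hDr]; ring
    rw [e5, Real.exp_add]
    ring
  rw [e4, hD2, pow_add]
  have hT : 0 ≤ Real.exp (-(4 * n * θ)) * (1 + Real.exp θ) ^ D := by positivity
  have e6 : Real.exp (2 * θ) = Real.exp θ ^ 2 := by
    rw [← Real.exp_nat_mul]
    congr 1
  have hq : 0 < Real.exp θ := Real.exp_pos θ
  rw [e6]
  nlinarith

lemma lagr {n : ℕ} (hn : 1 ≤ n) (Q : ℚ[X]) (hQ : Q.natDegree ≤ 8 * n - 2)
    (k : ℕ) (hk1 : 3 * n + 1 ≤ k) (A θ : ℝ) (hA0 : 0 ≤ A)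
    (hA : ∀ j : ℕ, j ≤ 8 * n - 2 → ‖aeval (zl (nd n j)) Q‖ ≤ A * Real.exp (2 * θ * |nd n j|)) :
    |((Q.eval (-(k : ℚ)) : ℚ) : ℝ)| ≤
      A * ((13 / 9) ^ (4 * n) * 2 ^ (8 * n) * Real.exp k * (Real.exp (-(4 * n * θ)) * (1 + Real.exp θ) ^ (8 * n))) := by
  classical
  set D := 8 * n - 2 with hD
  have hn1 : (1 : ℝ) ≤ n := by exact_mod_cast hn
  have hkr : 3 * (n : ℝ) + 1 ≤ k := by exact_mod_cast hk1
  have hk0 : (0 : ℝ) < k := by linarith
  set f : ℂ[X] := Q.map (algebraMap ℚ ℂ) with hf
  have hinj : Set.InjOn (fun j : ℕ => zl (nd n j)) (Finset.range (D + 1) : Set ℕ) := by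
    intro a _ b _ hab
    have := congrArg Complex.im hab
    simp only [zl, nd] at this
    simp at this
    exact this
  have hdeg : f.degree < (Finset.range (D + 1)).card := by
    rw [Finset.card_range]
    refine lt_of_le_of_lt (Polynomial.degree_map_le) ?_
    refine lt_of_le_of_lt Polynomial.degree_le_natDegree ?_
    exact_mod_cast (by omega : Q.natDegree < D + 1)
  have hint := Lagrange.eq_interpolate hinj hdeg
  have hev : f.eval (-(k : ℂ)) = ∑ j ∈ Finset.range (D + 1), f.eval (zl (nd n j)) *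
      ∏ l ∈ (Finset.range (D + 1)).erase j, ((zl (nd n j) - zl (nd n l))⁻¹ * (-(k : ℂ) - zl (nd n l))) := by
    conv_lhs => rw [hint]
    rw [Lagrange.interpolate_apply, Polynomial.eval_finsetSum]
    apply Finset.sum_congr rfl
    intro j _
    rw [Polynomial.eval_mul, Polynomial.eval_C]
    congr 1
    unfold Lagrange.basis
    rw [Polynomial.eval_prod]
    apply Finset.prod_congr rfl
    intro l _
    unfold Lagrange.basisDivisor
    simp
  have hfe : ∀ z : ℂ, f.eval z = aeval z Q := by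
    intro z
    rw [hf, Polynomial.eval_map_algebraMap]
  have h0 : |((Q.eval (-(k : ℚ)) : ℚ) : ℝ)| = ‖f.eval (-(k : ℂ))‖ := by
    have e : f.eval (-(k : ℂ)) = (((Q.eval (-(k : ℚ)) : ℚ) : ℝ) : ℂ) := by
      rw [hf]
      have : (-(k : ℂ)) = algebraMap ℚ ℂ (-(k : ℚ)) := by simp
      rw [this, Polynomial.eval_map_algebraMap, Polynomial.aeval_algebraMap_apply]
      simp
    rw [e, Complex.norm_real, Real.norm_eq_abs]
  rw [h0, hev]
  refine (norm_sum_le _ _).trans ?_
  set T : ℝ := (13 / 9) ^ (4 * n) * 2 ^ (8 * n) * Real.exp k with hT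
  have hT0 : 0 ≤ T := by positivity
  have hterm : ∀ j ∈ Finset.range (D + 1), ‖f.eval (zl (nd n j)) *
      ∏ l ∈ (Finset.range (D + 1)).erase j, ((zl (nd n j) - zl (nd n l))⁻¹ * (-(k : ℂ) - zl (nd n l)))‖ ≤
      A * T * ((D.choose j : ℝ) * Real.exp (2 * θ * |nd n j|)) := by
    intro j hj
    have hjD : j ≤ D := by
      rw [Finset.mem_range] at hj
      omega
    rw [norm_mul, hfe]
    have hm := mul_le_mul_of_nonneg_right (hA j hjD) (norm_nonneg
      (∏ l ∈ (Finset.range (D + 1)).erase j, ((zl (nd n j) - zl (nd n l))⁻¹ * (-(k : ℂ) - zl (nd n l)))))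
    refine hm.trans ?_
    have hprod : ‖∏ l ∈ (Finset.range (D + 1)).erase j,
        ((zl (nd n j) - zl (nd n l))⁻¹ * (-(k : ℂ) - zl (nd n l)))‖ ≤ T * (D.choose j : ℝ) := by
      rw [norm_prod]
      have hc : ((Finset.range (D + 1)).erase j).card = D := by
        rw [Finset.card_erase_of_mem hj, Finset.card_range]
        rfl
      have e1 : ∏ l ∈ (Finset.range (D + 1)).erase j, ‖(zl (nd n j) - zl (nd n l))⁻¹ * (-(k : ℂ) - zl (nd n l))‖ =
          (2 : ℝ) ^ D * (∏ l ∈ (Finset.range (D + 1)).erase j, |(j : ℝ) - l|)⁻¹ *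
          ∏ l ∈ (Finset.range (D + 1)).erase j, ‖-(k : ℂ) - zl (nd n l)‖ := by
        have e0 : (2 : ℝ) ^ D = ∏ _l ∈ (Finset.range (D + 1)).erase j, (2 : ℝ) := by
          rw [Finset.prod_const, hc]
        rw [e0, ← Finset.prod_inv_distrib, ← Finset.prod_mul_distrib, ← Finset.prod_mul_distrib]
        apply Finset.prod_congr rfl
        intro l _
        rw [norm_mul, norm_inv]
        congr 1
        have : zl (nd n j) - zl (nd n l) = ((((j : ℝ) - l) / 2 : ℝ) : ℂ) * Complex.I := by
          unfold zl nd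
          push_cast
          ring
        rw [this, norm_mul, Complex.norm_I, mul_one, Complex.norm_real, Real.norm_eq_abs, abs_div,
          abs_of_pos (by norm_num : (0 : ℝ) < 2), inv_div]
        ring
      rw [e1, Mea.prod_dist D j hjD]
      have h3 : (∏ l ∈ (Finset.range (D + 1)).erase j, ‖-(k : ℂ) - zl (nd n l)‖) ^ 2 ≤
          (13 / 9 * (k : ℝ) ^ 2) ^ D := by
        rw [← Finset.prod_pow]
        calc _ ≤ ∏ _l ∈ (Finset.range (D + 1)).erase j, (13 / 9 * (k : ℝ) ^ 2) := by
              apply Finset.prod_le_prod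
              · intro l _; positivity
              · intro l hl
                have hl' : l ≤ 8 * n := by
                  have := Finset.mem_range.1 (Finset.mem_of_mem_erase hl)
                  omega
                have hl'' : (l : ℝ) ≤ 8 * n := by exact_mod_cast hl'
                have hl0 : (0 : ℝ) ≤ l := Nat.cast_nonneg l
                have e2 : ‖-(k : ℂ) - zl (nd n l)‖ ^ 2 = ((k : ℝ) - 1 / 2) ^ 2 + nd n l ^ 2 := by
                  rw [← Complex.normSq_eq_norm_sq, Complex.normSq_apply]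
                  simp [zl]
                  ring
                rw [e2]
                have h4 : nd n l ^ 2 ≤ (2 * (n : ℝ)) ^ 2 := by
                  apply sq_le_sq'
                  · unfold nd; linarith
                  · unfold nd; linarith
                nlinarith
          _ = _ := by rw [Finset.prod_const, hc]
      have h5 : ∏ l ∈ (Finset.range (D + 1)).erase j, ‖-(k : ℂ) - zl (nd n l)‖ ≤
          (13 / 9) ^ (4 * n) * (k : ℝ) ^ D := by
        apply le_of_pow_le_pow_left₀ two_ne_zero (by positivity)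
        refine h3.trans ?_
        rw [mul_pow, mul_pow, ← pow_mul, ← pow_mul, ← pow_mul, mul_comm D 2]
        apply mul_le_mul_of_nonneg_right _ (by positivity)
        exact pow_le_pow_right₀ (by norm_num) (by omega)
      have h6 : ((j.factorial : ℝ) * ((D - j).factorial : ℝ))⁻¹ = (D.choose j : ℝ) / (D.factorial : ℝ) := by
        have h7 := Nat.choose_mul_factorial_mul_factorial hjD
        have h8 : (D.choose j : ℝ) * (j.factorial : ℝ) * ((D - j).factorial : ℝ) = (D.factorial : ℝ) := by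
          exact_mod_cast h7
        have h9 : (0 : ℝ) < (D.factorial : ℝ) := by positivity
        have h10 : (0 : ℝ) < (j.factorial : ℝ) := by positivity
        have h11 : (0 : ℝ) < ((D - j).factorial : ℝ) := by positivity
        rw [eq_div_iff h9.ne', ← h8]
        field_simp
      have h12 : (k : ℝ) ^ D / (D.factorial : ℝ) ≤ Real.exp k := Real.pow_div_factorial_le_exp _ hk0.le D
      rw [h6]
      have h13 : (2 : ℝ) ^ D ≤ 2 ^ (8 * n) := pow_le_pow_right₀ (by norm_num) (by omega)
      have hch : (0 : ℝ) ≤ (D.choose j : ℝ) := Nat.cast_nonneg _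
      calc (2 : ℝ) ^ D * ((D.choose j : ℝ) / (D.factorial : ℝ)) *
            ∏ l ∈ (Finset.range (D + 1)).erase j, ‖-(k : ℂ) - zl (nd n l)‖
          ≤ (2 : ℝ) ^ (8 * n) * ((D.choose j : ℝ) / (D.factorial : ℝ)) * ((13 / 9) ^ (4 * n) * (k : ℝ) ^ D) := by
            apply mul_le_mul _ h5 (Finset.prod_nonneg fun _ _ => norm_nonneg _) (by positivity)
            exact mul_le_mul_of_nonneg_right h13 (by positivity)
        _ = (13 / 9) ^ (4 * n) * 2 ^ (8 * n) * ((k : ℝ) ^ D / (D.factorial : ℝ)) * (D.choose j : ℝ) := by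
            field_simp
        _ ≤ _ := by
            rw [hT]
            apply mul_le_mul_of_nonneg_right _ hch
            exact mul_le_mul_of_nonneg_left h12 (by positivity)
    calc A * Real.exp (2 * θ * |nd n j|) * ‖∏ l ∈ (Finset.range (D + 1)).erase j,
        ((zl (nd n j) - zl (nd n l))⁻¹ * (-(k : ℂ) - zl (nd n l)))‖
        ≤ A * Real.exp (2 * θ * |nd n j|) * (T * (D.choose j : ℝ)) :=
          mul_le_mul_of_nonneg_left hprod (by positivity)
      _ = _ := by ring
  refine (Finset.sum_le_sum hterm).trans ?_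
  rw [← Finset.mul_sum, mul_assoc]
  apply mul_le_mul_of_nonneg_left _ hA0
  exact mul_le_mul_of_nonneg_left (node_sum θ n hn) hT0

end

end Pool.Agent.V11133.ZM
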