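import Pool.Agent.H383.Z34.G1A
import Pool.Agent.H312R3.M34.Rho

/-!
# A lower bound of the weight on the line
-/

open Polynomial Pool.Agent.H337R2 Filter Topology Pool.Agent.ZF

namespace Pool.Agent.V11133.ZM

noncomputable section

lemma HM_tendsto {y : ℝ} (hy : y ≠ 0) : Tendsto (HM y) atTop (𝓝 (Real.cosh (Real.pi * y))) := by
  have hπ := Real.pi_pos
  have h1 := sinh_prod hy
  have h2 := sinh_prod (x := 2 * y) (by positivity)
  have hS : Real.sinh (Real.pi * y) ≠ 0 := by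
    rw [Ne, Real.sinh_eq_zero]
    positivity
  have h3 : Tendsto (fun M : ℕ => 2 * M) atTop atTop := tendsto_id.const_mul_atTop' (by norm_num)
  have h4 := h2.comp h3
  have h6 := h4.div h1 (div_ne_zero hS (by positivity))
  have e : Real.sinh (Real.pi * (2 * y)) / (Real.pi * (2 * y)) / (Real.sinh (Real.pi * y) / (Real.pi * y)) =
      Real.cosh (Real.pi * y) := by
    rw [show Real.pi * (2 * y) = 2 * (Real.pi * y) by ring, Real.sinh_two_mul]
    field_simp
  rw [e] at h6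
  refine h6.congr (fun M => ?_)
  simp only [Pi.div_apply, Function.comp]
  rw [HM_split]
  have : (∏ j ∈ Finset.range M, (1 + y ^ 2 / ((j : ℝ) + 1) ^ 2)) ≠ 0 := by
    rw [Finset.prod_ne_zero_iff]
    intro j _
    positivity
  field_simp

lemma HM_pos (y : ℝ) (M : ℕ) : 0 < HM y M := by
  unfold HM
  exact Finset.prod_pos fun m _ => by positivity

lemma HM_tail (y : ℝ) {M : ℕ} (hM : 1 ≤ M) (r : ℕ) :
    HM y (M + r) * Real.exp (y ^ 2 / ((M : ℝ) + r)) ≤ HM y M * Real.exp (y ^ 2 / M) := by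
  have hM0 : (0 : ℝ) < M := by exact_mod_cast hM
  induction r with
  | zero => simp
  | succ r ih =>
    refine le_trans ?_ ih
    have e1 : HM y (M + (r + 1)) = HM y (M + r) * (1 + y ^ 2 / (((M + r : ℕ) : ℝ) + 1 / 2) ^ 2) := by
      unfold HM
      rw [← add_assoc, Finset.prod_range_succ]
    rw [e1, mul_assoc]
    apply mul_le_mul_of_nonneg_left _ (HM_pos _ _).le
    set x : ℝ := (M : ℝ) + r with hx
    have hx0 : 0 < x := by positivity
    have e2 : ((M + r : ℕ) : ℝ) = x := by push_cast; rfl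
    have e3 : ((M : ℝ) + ((r + 1 : ℕ) : ℝ)) = x + 1 := by push_cast; ring
    rw [e2, e3]
    have h1 : 1 + y ^ 2 / (x + 1 / 2) ^ 2 ≤ Real.exp (y ^ 2 / x - y ^ 2 / (x + 1)) := by
      have h2 := Real.add_one_le_exp (y ^ 2 / x - y ^ 2 / (x + 1))
      have h3 : y ^ 2 / (x + 1 / 2) ^ 2 ≤ y ^ 2 / x - y ^ 2 / (x + 1) := by
        have e4 : y ^ 2 / x - y ^ 2 / (x + 1) = y ^ 2 / (x * (x + 1)) := by
          field_simp
          ring
        rw [e4]
        apply div_le_div_of_nonneg_left (sq_nonneg y) (by positivity)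
        nlinarith
      linarith
    calc (1 + y ^ 2 / (x + 1 / 2) ^ 2) * Real.exp (y ^ 2 / (x + 1))
        ≤ Real.exp (y ^ 2 / x - y ^ 2 / (x + 1)) * Real.exp (y ^ 2 / (x + 1)) :=
          mul_le_mul_of_nonneg_right h1 (Real.exp_pos _).le
      _ = Real.exp (y ^ 2 / x) := by rw [← Real.exp_add]; congr 1; ring

/-- lower bound of the half-integer product -/
lemma HM_lower (y : ℝ) {M : ℕ} (hM : 1 ≤ M) :
    Real.exp (Real.pi * |y|) / 2 ≤ HM y M * Real.exp (y ^ 2 / M) := by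
  by_cases hy : y = 0
  · subst hy
    unfold HM
    simp
    norm_num
  · have h1 : Real.cosh (Real.pi * y) ≤ HM y M * Real.exp (y ^ 2 / M) := by
      apply le_of_tendsto' ((HM_tendsto hy).comp (tendsto_add_atTop_nat M))
      intro r
      simp only [Function.comp]
      have h2 := HM_tail y hM r
      rw [add_comm r M]
      refine le_trans ?_ h2
      apply le_mul_of_one_le_right (HM_pos _ _).le
      apply Real.one_le_exp
      positivity
    refine le_trans ?_ h1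
    have h3 : Real.cosh (Real.pi * y) = Real.cosh (Real.pi * |y|) := by
      rw [← Real.cosh_abs, abs_mul, abs_of_pos Real.pi_pos]
    rw [h3, Real.cosh_eq]
    have := Real.exp_pos (-(Real.pi * |y|))
    linarith

lemma half_prod (M : ℕ) : ((M.factorial : ℕ) : ℝ) ≤ (2 * M + 1) * ∏ m ∈ Finset.Icc 1 M, ((m : ℝ) - 1 / 2) := by
  induction M with
  | zero => simp
  | succ M ih =>
    rw [Nat.factorial_succ, Finset.prod_Icc_succ_top (by omega)]
    push_cast
    have h0 : (0 : ℝ) ≤ M := Nat.cast_nonneg M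
    have hP : 0 ≤ ∏ m ∈ Finset.Icc 1 M, ((m : ℝ) - 1 / 2) := by
      apply Finset.prod_nonneg
      intro m hm
      have : (1 : ℝ) ≤ m := by exact_mod_cast (Finset.mem_Icc.1 hm).1
      linarith
    calc ((M : ℝ) + 1) * (M.factorial : ℝ)
        ≤ (M + 1) * ((2 * M + 1) * ∏ m ∈ Finset.Icc 1 M, ((m : ℝ) - 1 / 2)) :=
          mul_le_mul_of_nonneg_left ih (by positivity)
      _ ≤ (2 * (M + 1) + 1) * ((∏ m ∈ Finset.Icc 1 M, ((m : ℝ) - 1 / 2)) * (M + 1 - 1 / 2)) := by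
          nlinarith [mul_nonneg h0 hP]

lemma sq_prod_fac (a : ℕ) : ∀ L : ℕ, ∏ k ∈ Finset.Icc (a + 1) (a + L), ((k : ℝ) ^ 2) =
    ((((a + L).factorial : ℕ) : ℝ) / ((a.factorial : ℕ) : ℝ)) ^ 2 := by
  intro L
  induction L with
  | zero =>
    have h : ((a.factorial : ℕ) : ℝ) ≠ 0 := by positivity
    simp [h]
  | succ L ih =>
    rw [← add_assoc, Finset.prod_Icc_succ_top (by omega), ih, Nat.factorial_succ]
    push_cast
    ring

lemma den_bound (a : ℕ) (ha : 1 ≤ a) (y : ℝ) : ∀ L : ℕ,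
    ∏ k ∈ Finset.Icc (a + 1) (a + L), ‖zl y + (k : ℂ)‖ ^ 2 ≤
      ((((a + L).factorial : ℕ) : ℝ) / ((a.factorial : ℕ) : ℝ)) ^ 2 *
        Real.exp (y ^ 2 / a - y ^ 2 / ((a : ℝ) + L)) := by
  intro L
  have ha0 : (0 : ℝ) < a := by exact_mod_cast ha
  induction L with
  | zero =>
    have h : ((a.factorial : ℕ) : ℝ) ≠ 0 := by positivity
    simp [h]
  | succ L ih =>
    rw [← add_assoc, Finset.prod_Icc_succ_top (by omega), Nat.factorial_succ]
    set x : ℝ := (a : ℝ) + L with hx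
    have hx0 : 0 < x := by positivity
    have h1 : ‖zl y + ((a + L + 1 : ℕ) : ℂ)‖ ^ 2 ≤ (x + 1) ^ 2 * Real.exp (y ^ 2 / x - y ^ 2 / (x + 1)) := by
      have e1 : ‖zl y + ((a + L + 1 : ℕ) : ℂ)‖ ^ 2 = (x + 1 - 1 / 2) ^ 2 + y ^ 2 := by
        rw [← Complex.normSq_eq_norm_sq, Complex.normSq_apply]
        simp [zl]
        ring
      have e4 : y ^ 2 / x - y ^ 2 / (x + 1) = y ^ 2 / (x * (x + 1)) := by
        field_simp
        ring
      have h2 := Real.add_one_le_exp (y ^ 2 / x - y ^ 2 / (x + 1))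
      have h3 : y ^ 2 ≤ (x + 1) ^ 2 * (y ^ 2 / x - y ^ 2 / (x + 1)) := by
        rw [e4]
        have e5 : (x + 1) ^ 2 * (y ^ 2 / (x * (x + 1))) = y ^ 2 * ((x + 1) / x) := by
          field_simp
        rw [e5]
        apply le_mul_of_one_le_right (sq_nonneg y)
        rw [le_div_iff₀ hx0]
        linarith
      rw [e1]
      nlinarith [sq_nonneg (x + 1)]
    have hE : 0 ≤ ((((a + L).factorial : ℕ) : ℝ) / ((a.factorial : ℕ) : ℝ)) ^ 2 *
        Real.exp (y ^ 2 / a - y ^ 2 / x) := by positivity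
    have h5 := mul_le_mul ih h1 (by positivity) hE
    refine h5.trans (le_of_eq ?_)
    have e6 : (a : ℝ) + ((L + 1 : ℕ) : ℝ) = x + 1 := by push_cast; ring
    have e7 : (((a + L + 1) * (a + L).factorial : ℕ) : ℝ) = (x + 1) * (((a + L).factorial : ℕ) : ℝ) := by
      push_cast
      ring
    rw [e6, e7]
    have e8 : Real.exp (y ^ 2 / a - y ^ 2 / (x + 1)) =
        Real.exp (y ^ 2 / a - y ^ 2 / x) * Real.exp (y ^ 2 / x - y ^ 2 / (x + 1)) := by
      rw [← Real.exp_add]; congr 1; ring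
    rw [e8]
    ring

/-- the exponent of the weight on the nodes -/
def bet : ℝ := Real.pi / 2 + 59 / 30

/-- **lower bound of the weight** -/
theorem NG_low {n : ℕ} (hn : 1 ≤ n) {y : ℝ} (hy : |y| ≤ 2 * n) :
    Real.exp (2 * Real.pi * |y|) ≤
      NG n y * (3 * (4 * n + 1) ^ 3 * ((Nat.choose (10 * n) (3 * n) : ℕ) : ℝ) ^ 2 * Real.exp (bet * |y|)) := by
  have hn1 : (1 : ℝ) ≤ n := by exact_mod_cast hn
  have hn0 : (0 : ℝ) < n := by linarith
  have hay : 0 ≤ |y| := abs_nonneg y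
  set P1 := ∏ m ∈ Finset.Icc 1 (2 * n), ‖zl y + (m : ℂ)‖ ^ 3 with hP1
  set P2 := ∏ k ∈ Finset.Icc (3 * n + 1) (10 * n), ‖zl y + (k : ℂ)‖ ^ 2 with hP2
  set f2 : ℝ := (((2 * n).factorial : ℕ) : ℝ) with hf2
  set f3 : ℝ := (((3 * n).factorial : ℕ) : ℝ) with hf3
  set f7 : ℝ := (((7 * n).factorial : ℕ) : ℝ) with hf7
  set f10 : ℝ := (((10 * n).factorial : ℕ) : ℝ) with hf10
  have g2 : 0 < f2 := by positivity
  have g3 : 0 < f3 := by positivity
  have g7 : 0 < f7 := by positivity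
  have g10 : 0 < f10 := by positivity
  have hC : ((Nat.choose (10 * n) (3 * n) : ℕ) : ℝ) = f10 / (f3 * f7) := by
    rw [Nat.cast_choose ℝ (by omega : 3 * n ≤ 10 * n), show 10 * n - 3 * n = 7 * n by omega]
  -- denominator
  have hysq : y ^ 2 = |y| ^ 2 := (sq_abs y).symm
  have d1 : P2 ≤ (f10 / f3) ^ 2 * Real.exp (7 / 15 * |y|) := by
    have h := den_bound (3 * n) (by omega) y (7 * n)
    rw [show 3 * n + 7 * n = 10 * n by ring] at h
    refine h.trans ?_
    apply mul_le_mul_of_nonneg_left _ (by positivity)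
    apply Real.exp_le_exp.2
    push_cast
    have e1 : y ^ 2 / (3 * (n : ℝ)) - y ^ 2 / (3 * n + 7 * n) = |y| * (7 / 30 * (|y| / n)) := by
      rw [hysq]
      field_simp
      ring
    rw [e1]
    have h2 : |y| / n ≤ 2 := by
      rw [div_le_iff₀ hn0]
      exact hy
    nlinarith
  -- numerator
  have hHM : Real.exp ((Real.pi - 1) * |y|) / 2 ≤ HM y (2 * n) := by
    have h := HM_lower y (M := 2 * n) (by omega)
    push_cast at h
    have h2 : y ^ 2 / (2 * (n : ℝ)) ≤ |y| := by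
      rw [hysq, div_le_iff₀ (by positivity)]
      nlinarith
    have h3 : HM y (2 * n) * Real.exp (y ^ 2 / (2 * (n : ℝ))) ≤ HM y (2 * n) * Real.exp |y| :=
      mul_le_mul_of_nonneg_left (Real.exp_le_exp.2 h2) (HM_pos _ _).le
    have h4 := h.trans h3
    have e : Real.exp ((Real.pi - 1) * |y|) = Real.exp (Real.pi * |y|) * Real.exp (-|y|) := by
      rw [← Real.exp_add]; congr 1; ring
    have h5 := mul_le_mul_of_nonneg_right h4 (Real.exp_pos (-|y|)).le
    rw [mul_assoc (HM y (2 * n)), ← Real.exp_add, add_neg_cancel, Real.exp_zero, mul_one] at h5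
    rw [e]
    linarith
  have h0 : ∏ m ∈ Finset.Icc 1 (2 * n), ‖zl 0 + (m : ℂ)‖ ^ 3 =
      (∏ m ∈ Finset.Icc 1 (2 * n), ((m : ℝ) - 1 / 2)) ^ 3 := by
    rw [← Finset.prod_pow]
    refine Finset.prod_congr rfl fun m hm => ?_
    have hm1 : (1 : ℝ) ≤ m := by exact_mod_cast (Finset.mem_Icc.1 hm).1
    congr 1
    have : zl 0 + (m : ℂ) = (((m : ℝ) - 1 / 2 : ℝ) : ℂ) := by
      unfold zl
      push_cast
      ring
    rw [this, Complex.norm_real, Real.norm_eq_abs, abs_of_nonneg (by linarith)]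
  have hH : f2 ≤ (4 * n + 1) * ∏ m ∈ Finset.Icc 1 (2 * n), ((m : ℝ) - 1 / 2) := by
    have h := half_prod (2 * n)
    push_cast at h
    have e : (2 * (2 * (n : ℝ)) + 1) = 4 * n + 1 := by ring
    rw [e] at h
    exact h
  have n1 : P1 ^ 2 = ((∏ m ∈ Finset.Icc 1 (2 * n), ((m : ℝ) - 1 / 2)) ^ 3) ^ 2 * HM y (2 * n) ^ 3 := by
    have h := G1Aaux.prod_w y (Finset.Icc 1 (2 * n)) 3
    rw [← h0, G1Aaux.HM_w]
    exact h
  have hP10 : 0 ≤ P1 := Finset.prod_nonneg fun m _ => by positivity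
  have hP20 : 0 < P2 := by
    apply Finset.prod_pos
    intro m hm
    rw [Finset.mem_Icc] at hm
    have := Mea.zl_add_norm_ge y (m := m) (by omega)
    have h3 : (0 : ℝ) < m := by exact_mod_cast (by omega : 0 < m)
    have h4 : 0 < ‖zl y + (m : ℂ)‖ := lt_of_lt_of_le (by positivity) this
    positivity
  have n2 : (f2 / (4 * n + 1)) ^ 3 * Real.exp (3 / 2 * (Real.pi - 1) * |y|) ≤ 3 * P1 := by
    have hle : f2 / (4 * n + 1) ≤ ∏ m ∈ Finset.Icc 1 (2 * n), ((m : ℝ) - 1 / 2) := by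
      rw [div_le_iff₀ (by positivity)]
      linarith
    set G := ∏ m ∈ Finset.Icc 1 (2 * n), ((m : ℝ) - 1 / 2) with hG
    have hG0 : 0 ≤ G := le_trans (by positivity) hle
    apply le_of_pow_le_pow_left₀ (two_ne_zero) (by positivity)
    rw [mul_pow 3 P1 2, n1]
    have e1 : ((f2 / (4 * n + 1)) ^ 3 * Real.exp (3 / 2 * (Real.pi - 1) * |y|)) ^ 2 =
        ((f2 / (4 * n + 1)) ^ 3) ^ 2 * Real.exp ((Real.pi - 1) * |y|) ^ 3 := by
      rw [mul_pow]
      congr 1
      rw [← Real.exp_nat_mul, ← Real.exp_nat_mul]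
      congr 1
      push_cast
      ring
    rw [e1]
    have h3 : ((f2 / (4 * n + 1)) ^ 3) ^ 2 ≤ (G ^ 3) ^ 2 :=
      pow_le_pow_left₀ (by positivity) (pow_le_pow_left₀ (by positivity) hle 3) 2
    have h4 : (Real.exp ((Real.pi - 1) * |y|) / 2) ^ 3 ≤ HM y (2 * n) ^ 3 :=
      pow_le_pow_left₀ (by positivity) hHM 3
    rw [div_pow] at h4
    have h5 : Real.exp ((Real.pi - 1) * |y|) ^ 3 ≤ 9 * HM y (2 * n) ^ 3 := by
      have h6 : 0 ≤ HM y (2 * n) ^ 3 := pow_nonneg (HM_pos _ _).le 3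
      rw [div_le_iff₀ (by norm_num)] at h4
      nlinarith
    calc ((f2 / (4 * n + 1)) ^ 3) ^ 2 * Real.exp ((Real.pi - 1) * |y|) ^ 3
        ≤ (G ^ 3) ^ 2 * (9 * HM y (2 * n) ^ 3) := mul_le_mul h3 h5 (by positivity) (by positivity)
      _ = 3 ^ 2 * ((G ^ 3) ^ 2 * HM y (2 * n) ^ 3) := by ring
  -- together
  have hNG : NG n y = f7 ^ 2 / f2 ^ 3 * P1 / P2 := rfl
  rw [hNG, hC]
  have hE1 : 0 < Real.exp (7 / 15 * |y|) := Real.exp_pos _
  have key : Real.exp (3 / 2 * (Real.pi - 1) * |y|) / Real.exp (7 / 15 * |y|) ≤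
      f7 ^ 2 / f2 ^ 3 * P1 / P2 * (3 * (4 * n + 1) ^ 3 * (f10 / (f3 * f7)) ^ 2) := by
    have e1 : f7 ^ 2 / f2 ^ 3 * P1 / P2 * (3 * (4 * n + 1) ^ 3 * (f10 / (f3 * f7)) ^ 2) =
        (3 * P1 * (4 * n + 1) ^ 3 / f2 ^ 3) * ((f10 / f3) ^ 2 / P2) := by
      field_simp
    rw [e1]
    have h1 : Real.exp (3 / 2 * (Real.pi - 1) * |y|) ≤ 3 * P1 * (4 * n + 1) ^ 3 / f2 ^ 3 := by
      rw [le_div_iff₀ (by positivity)]
      have h2 := mul_le_mul_of_nonneg_right n2 (by positivity : (0 : ℝ) ≤ (4 * n + 1) ^ 3)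
      refine le_trans (le_of_eq ?_) h2
      field_simp
    have h3 : (Real.exp (7 / 15 * |y|))⁻¹ ≤ (f10 / f3) ^ 2 / P2 := by
      rw [le_div_iff₀ hP20, inv_mul_le_iff₀ hE1]
      linarith
    rw [div_eq_mul_inv]
    exact mul_le_mul h1 h3 (by positivity) (by positivity)
  have e2 : Real.exp (2 * Real.pi * |y|) =
      Real.exp (3 / 2 * (Real.pi - 1) * |y|) / Real.exp (7 / 15 * |y|) * Real.exp (bet * |y|) := by
    rw [← Real.exp_sub, ← Real.exp_add]
    congr 1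
    unfold bet
    ring
  rw [e2]
  calc _ ≤ f7 ^ 2 / f2 ^ 3 * P1 / P2 * (3 * (4 * n + 1) ^ 3 * (f10 / (f3 * f7)) ^ 2) * Real.exp (bet * |y|) :=
        mul_le_mul_of_nonneg_right key (Real.exp_pos _).le
    _ = _ := by ring

end

end Pool.Agent.V11133.ZM
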