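import Pool.Agent.V11133.ZM.Lag

/-!
# The pole functional is bounded by the values on the line, with a sharper constant
-/

open Polynomial Pool.Agent.H337R2 Filter Topology Pool.Agent.ZF

namespace Pool.Agent.V11133.ZM

noncomputable section

lemma choose_le (N a : ℕ) (u : ℝ) (hu : 0 < u) : (N.choose a : ℝ) * u ^ a ≤ (1 + u) ^ N := by
  by_cases ha : a ≤ N
  · rw [add_comm, add_pow]
    have h := Finset.single_le_sum (f := fun m => u ^ m * 1 ^ (N - m) * (N.choose m : ℝ))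
      (fun m _ => by positivity) (Finset.mem_range.2 (by omega : a < N + 1))
    refine le_trans (le_of_eq ?_) h
    simp only [one_pow, mul_one]
    ring
  · rw [Nat.choose_eq_zero_of_lt (by omega)]
    simp only [Nat.cast_zero, zero_mul]
    positivity

/-- product of the distances of a pole to the others, exactly -/
lemma prod_poles_eq {n k : ℕ} (hk : k ∈ sF n) :
    ∏ m ∈ (sF n).erase k, |-(k : ℝ) + m| =
      (((k - (3 * n + 1)).factorial : ℕ) : ℝ) * (((10 * n - k).factorial : ℕ) : ℝ) := by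
  rw [Finset.mem_Icc] at hk
  have hn : 1 ≤ n := by omega
  set j := k - (3 * n + 1) with hj
  have hjk : k = j + (3 * n + 1) := by omega
  have hjD : j ≤ 7 * n - 1 := by omega
  have e10 : 10 * n - k = 7 * n - 1 - j := by omega
  rw [e10, ← Mea.prod_dist (7 * n - 1) j hjD]
  have hs : (sF n).erase k = ((Finset.range (7 * n - 1 + 1)).erase j).image (fun l => l + (3 * n + 1)) := by
    ext m
    simp only [Finset.mem_erase, Finset.mem_image, Finset.mem_range, Finset.mem_Icc]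
    constructor
    · rintro ⟨h2, h3, h4⟩
      exact ⟨m - (3 * n + 1), ⟨by omega, by omega⟩, by omega⟩
    · rintro ⟨l, ⟨h2, h3⟩, rfl⟩
      exact ⟨by omega, by omega, by omega⟩
  rw [hs, Finset.prod_image (fun a _ b _ h => by omega)]
  apply Finset.prod_congr rfl
  intro l _
  rw [hjk, abs_sub_comm]
  congr 1
  push_cast
  ring

lemma prod_desc (a : ℕ) : ∀ L : ℕ, L ≤ a → ∏ j ∈ Finset.Icc 1 L, ((a : ℝ) + 1 - j) =
    ((a.factorial : ℕ) : ℝ) / (((a - L).factorial : ℕ) : ℝ) := by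
  intro L
  induction L with
  | zero =>
    intro _
    have h : ((a.factorial : ℕ) : ℝ) ≠ 0 := by positivity
    simp [h]
  | succ L ih =>
    intro hL
    rw [Finset.prod_Icc_succ_top (by omega), ih (by omega)]
    have h1 : a - L = (a - (L + 1)) + 1 := by omega
    rw [h1, Nat.factorial_succ]
    have h2 : ((a - (L + 1) + 1 : ℕ) : ℝ) = (a : ℝ) - L := by
      have : a - (L + 1) + 1 = a - L := by omega
      rw [this, Nat.cast_sub (by omega)]
    have h3 : (0 : ℝ) < (a : ℝ) - L := by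
      have : (L : ℝ) + 1 ≤ a := by exact_mod_cast hL
      linarith
    have h4 : (((a - (L + 1)).factorial : ℕ) : ℝ) ≠ 0 := by positivity
    rw [Nat.cast_mul, h2]
    push_cast
    have h5 : (a : ℝ) + 1 - (L + 1) = a - L := by ring
    rw [h5]
    field_simp

/-- the coefficient at a pole -/
lemma b_eq {n k : ℕ} (hk : k ∈ sF n) (Q : ℚ[X]) :
    |((pa (sF n) mF (PF n * Q) k 2 : ℚ) : ℝ)| =
      (7 * n * ((7 * n - 1).choose (k - (3 * n + 1)) : ℝ)) ^ 2 * ((k - 1).choose (2 * n) : ℝ) ^ 3 *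
        |((Q.eval (-(k : ℚ)) : ℚ) : ℝ)| := by
  have hk' := hk
  rw [Finset.mem_Icc] at hk'
  have hn : 1 ≤ n := by omega
  rw [Mea.pa_two, Polynomial.eval_mul]
  push_cast
  rw [abs_mul, abs_mul, Finset.abs_prod]
  have h2 : ∏ m ∈ (sF n).erase k, |((-(k : ℝ) + m)⁻¹) ^ 2| =
      ((∏ m ∈ (sF n).erase k, |-(k : ℝ) + m|)⁻¹) ^ 2 := by
    rw [← Finset.prod_inv_distrib, ← Finset.prod_pow]
    apply Finset.prod_congr rfl
    intro m _
    rw [abs_pow, abs_inv]
  rw [h2, prod_poles_eq hk]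
  have h3 : |(((PF n).eval (-(k : ℚ)) : ℚ) : ℝ)| =
      (((7 * n).factorial : ℕ) : ℝ) ^ 2 * ((k - 1).choose (2 * n) : ℝ) ^ 3 := by
    unfold PF
    rw [Polynomial.eval_mul, Polynomial.eval_C, Polynomial.eval_prod]
    push_cast
    rw [abs_mul, Finset.abs_prod]
    have h1 : ∏ j ∈ Finset.Icc 1 (2 * n), |((((X + C (j : ℚ)) ^ 3 : ℚ[X]).eval (-(k : ℚ)) : ℚ) : ℝ)| =
        (∏ j ∈ Finset.Icc 1 (2 * n), (((k - 1 : ℕ) : ℝ) + 1 - j)) ^ 3 := by
      rw [← Finset.prod_pow]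
      apply Finset.prod_congr rfl
      intro j hj
      rw [Finset.mem_Icc] at hj
      rw [Polynomial.eval_pow, Polynomial.eval_add, Polynomial.eval_X, Polynomial.eval_C]
      push_cast
      rw [abs_pow]
      congr 1
      have h2 : (j : ℝ) ≤ k := by exact_mod_cast (by omega : j ≤ k)
      rw [Nat.cast_sub (by omega), Nat.cast_one, abs_of_nonpos (by linarith)]
      ring
    rw [h1, prod_desc (k - 1) (2 * n) (by omega)]
    have h6 : |((cF n : ℚ) : ℝ)| = (((7 * n).factorial : ℕ) : ℝ) ^ 2 / (((2 * n).factorial : ℕ) : ℝ) ^ 3 := by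
      unfold cF
      push_cast
      rw [abs_of_nonneg (by positivity)]
    rw [h6, Nat.cast_choose ℝ (by omega : 2 * n ≤ k - 1)]
    have hf : (0 : ℝ) < (((2 * n).factorial : ℕ) : ℝ) := by positivity
    have hg : (0 : ℝ) < (((k - 1 - 2 * n).factorial : ℕ) : ℝ) := by positivity
    field_simp
  rw [h3]
  set a := k - (3 * n + 1) with ha
  have haD : a ≤ 7 * n - 1 := by omega
  have e10 : 10 * n - k = 7 * n - 1 - a := by omega
  rw [e10, Nat.cast_choose ℝ haD]
  have h7 : (((7 * n).factorial : ℕ) : ℝ) = 7 * n * (((7 * n - 1).factorial : ℕ) : ℝ) := by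
    have e : 7 * n = (7 * n - 1) + 1 := by omega
    have := Nat.factorial_succ (7 * n - 1)
    rw [← e] at this
    rw [this]
    push_cast
    ring
  rw [h7]
  have g1 : (0 : ℝ) < ((a.factorial : ℕ) : ℝ) := by positivity
  have g2 : (0 : ℝ) < (((7 * n - 1 - a).factorial : ℕ) : ℝ) := by positivity
  field_simp

/-- the constant for the coefficients -/
def K1 : ℝ := (177 / 50) ^ 14 * (127 / 50) ^ 6 * 3 ^ 6

lemma b_bound {n k : ℕ} (hk : k ∈ sF n) :
    (7 * n * ((7 * n - 1).choose (k - (3 * n + 1)) : ℝ)) ^ 2 * ((k - 1).choose (2 * n) : ℝ) ^ 3 * Real.exp k ≤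
      400 * (n : ℝ) ^ 2 * K1 ^ n := by
  rw [Finset.mem_Icc] at hk
  have hn : 1 ≤ n := by omega
  set a := k - (3 * n + 1) with ha
  have hka : k = a + (3 * n + 1) := by omega
  have c1 := choose_le (7 * n - 1) a (127 / 50) (by norm_num)
  have c2 := choose_le (k - 1) (2 * n) (1 / 3) (by norm_num)
  have c1' : ((7 * n - 1).choose a : ℝ) * (127 / 50) ^ a ≤ (177 / 50) ^ (7 * n) := by
    refine c1.trans ?_
    have e : (1 : ℝ) + 127 / 50 = 177 / 50 := by norm_num
    rw [e]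
    exact pow_le_pow_right₀ (by norm_num) (by omega)
  have c2' : ((k - 1).choose (2 * n) : ℝ) ≤ (4 / 3) ^ k * 3 ^ (2 * n) := by
    have e : (1 : ℝ) + 1 / 3 = 4 / 3 := by norm_num
    rw [e] at c2
    have h1 : ((4 : ℝ) / 3) ^ (k - 1) ≤ (4 / 3) ^ k := pow_le_pow_right₀ (by norm_num) (by omega)
    have h2 := c2.trans h1
    rw [one_div, inv_pow, ← div_eq_mul_inv, div_le_iff₀ (by positivity)] at h2
    exact h2
  have c1'' : ((7 * n - 1).choose a : ℝ) ≤ (177 / 50) ^ (7 * n) / (127 / 50) ^ a := by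
    rw [le_div_iff₀ (by positivity)]
    exact c1'
  have hE : Real.exp k = Real.exp 1 ^ k := by
    rw [← Real.exp_nat_mul, mul_one]
  have hbase : ((4 : ℝ) / 3) ^ 3 * Real.exp 1 ≤ (127 / 50) ^ 2 := by
    have := Real.exp_one_lt_d9
    norm_num
    linarith
  have hbk : (((4 : ℝ) / 3) ^ 3 * Real.exp 1) ^ k ≤ ((127 / 50) ^ 2) ^ k :=
    pow_le_pow_left₀ (by positivity) hbase k
  have hch1 : (0 : ℝ) ≤ ((7 * n - 1).choose a : ℝ) := Nat.cast_nonneg _
  have hch2 : (0 : ℝ) ≤ ((k - 1).choose (2 * n) : ℝ) := Nat.cast_nonneg _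
  calc (7 * n * ((7 * n - 1).choose a : ℝ)) ^ 2 * ((k - 1).choose (2 * n) : ℝ) ^ 3 * Real.exp k
      ≤ (7 * n * ((177 / 50) ^ (7 * n) / (127 / 50) ^ a)) ^ 2 * ((4 / 3) ^ k * 3 ^ (2 * n)) ^ 3 * Real.exp k := by
        apply mul_le_mul_of_nonneg_right _ (Real.exp_pos _).le
        apply mul_le_mul _ (pow_le_pow_left₀ hch2 c2' 3) (by positivity) (by positivity)
        apply pow_le_pow_left₀ (by positivity)
        exact mul_le_mul_of_nonneg_left c1'' (by positivity)
    _ = 49 * (n : ℝ) ^ 2 * ((177 / 50) ^ (14 * n) * 3 ^ (6 * n)) * (((127 / 50) ^ 2) ^ a)⁻¹ *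
          (((4 : ℝ) / 3) ^ 3 * Real.exp 1) ^ k := by
        rw [hE]
        have e1 : ((177 : ℝ) / 50) ^ (14 * n) = ((177 / 50) ^ (7 * n)) ^ 2 := by rw [← pow_mul]; congr 1; ring
        have e2 : (3 : ℝ) ^ (6 * n) = (3 ^ (2 * n)) ^ 3 := by rw [← pow_mul]; congr 1; ring
        have e3 : (((127 : ℝ) / 50) ^ 2) ^ a = ((127 / 50) ^ a) ^ 2 := by rw [← pow_mul, ← pow_mul, mul_comm]
        have e4 : (((4 : ℝ) / 3) ^ 3 * Real.exp 1) ^ k = ((4 / 3) ^ k) ^ 3 * Real.exp 1 ^ k := by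
          rw [mul_pow, ← pow_mul, ← pow_mul, mul_comm 3 k]
        rw [e1, e2, e3, e4]
        generalize ((177 : ℝ) / 50) ^ (7 * n) = U
        generalize (3 : ℝ) ^ (2 * n) = V
        generalize ((4 : ℝ) / 3) ^ k = W
        generalize Real.exp 1 ^ k = Z
        have hX : ((127 : ℝ) / 50) ^ a ≠ 0 := by positivity
        field_simp
        ring
    _ ≤ 49 * (n : ℝ) ^ 2 * ((177 / 50) ^ (14 * n) * 3 ^ (6 * n)) * (((127 / 50) ^ 2) ^ a)⁻¹ *
          ((127 / 50) ^ 2) ^ k := mul_le_mul_of_nonneg_left hbk (by positivity)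
    _ = 49 * (127 / 50) ^ 2 * (n : ℝ) ^ 2 * K1 ^ n := by
        have e5 : (((127 : ℝ) / 50) ^ 2) ^ k = ((127 / 50) ^ 2) ^ a * ((127 / 50) ^ (6 * n) * (127 / 50) ^ 2) := by
          rw [hka, ← pow_mul, ← pow_mul, ← pow_add, ← pow_add]
          congr 1
          ring
        have e6 : K1 ^ n = (177 / 50) ^ (14 * n) * (127 / 50) ^ (6 * n) * 3 ^ (6 * n) := by
          unfold K1
          rw [mul_pow, mul_pow, ← pow_mul, ← pow_mul, ← pow_mul]
        rw [e5, e6]
        have hX : (((127 : ℝ) / 50) ^ 2) ^ a ≠ 0 := by positivity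
        field_simp
    _ ≤ _ := by
        have hK : 0 ≤ K1 ^ n := by unfold K1; positivity
        have : 49 * ((127 : ℝ) / 50) ^ 2 ≤ 400 := by norm_num
        nlinarith [mul_nonneg (sq_nonneg (n : ℝ)) hK]

end

end Pool.Agent.V11133.ZM
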